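import Pool.Agent.Run7.h163.WL.Main

/-!
# Lattice and periodic tilings of a separable Hilbert space: short vectors in the weak closure
-/

set_option autoImplicit false

namespace Pool.Agent.Results.MP_3191e9_an.ShortWeakLimits

open Set Topology TopologicalSpace

/-- `H` is a separable infinite-dimensional real Hilbert space, `K` a bounded set with nonempty interior, `C` a
set of centres, `Λ` an additive subgroup with `C + Λ ⊆ C` and `C ⊆ Λ + (bounded set)`; the translates `c + K`,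
`c ∈ C`, cover `H` and have pairwise disjoint interiors. Then the weak closure of `Λ` contains arbitrarily short
vectors outside `Λ`. The lattice case is `C = Λ`. -/
theorem result {H : Type*} [NormedAddCommGroup H] [InnerProductSpace ℝ H] [CompleteSpace H]
    [SeparableSpace H] (hH : ¬ FiniteDimensional ℝ H)
    (K : Set H) (hK : Bornology.IsBounded K) (hint : (interior K).Nonempty)
    (C : Set H) (Λ : AddSubgroup H)
    (hper : ∀ c ∈ C, ∀ l ∈ Λ, c + l ∈ C)
    (hbdd : ∃ S : ℝ, ∀ c ∈ C, ∃ l ∈ Λ, ‖c - l‖ ≤ S)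
    (hcover : ⋃ c ∈ C, (fun x => c + x) '' K = univ)
    (hdisj : ∀ c ∈ C, ∀ c' ∈ C, c ≠ c' →
      Disjoint (interior ((fun x => c + x) '' K)) (interior ((fun x => c' + x) '' K))) :
    ∀ ε : ℝ, 0 < ε → ∃ v : H, v ∉ Λ ∧ ‖v‖ < ε ∧
      toWeakSpace ℝ H v ∈ closure (toWeakSpace ℝ H '' (Λ : Set H)) := by
  intro ε hε
  obtain ⟨x₁, hx₁⟩ := hint
  obtain ⟨r₁, hr₁, hball⟩ := Metric.isOpen_iff.1 isOpen_interior x₁ hx₁
  obtain ⟨R, hR⟩ := hK.exists_norm_le
  obtain ⟨S, hS⟩ := hbdd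
  have hcov : ∀ x : H, ∃ c ∈ C, x - c ∈ K := by
    intro x
    have h1 : x ∈ ⋃ c ∈ C, (fun x => c + x) '' K := by rw [hcover]; exact mem_univ x
    simp only [mem_iUnion, mem_image] at h1
    obtain ⟨c, hc, y, hy, hyx⟩ := h1
    refine ⟨c, hc, ?_⟩
    rw [← hyx, add_sub_cancel_left]
    exact hy
  have hI : ∀ c : H, interior ((fun x => c + x) '' K) = (fun x => c + x) '' interior K := by
    intro c
    exact ((Homeomorph.addLeft c).image_interior K).symm
  obtain ⟨c₀, hc₀, -⟩ := hcov 0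
  have hsep : ∀ l ∈ Λ, l ≠ 0 → ¬ ‖l‖ < r₁ := by
    intro l hl hl0 hlt
    have h1 := hdisj c₀ hc₀ (c₀ + l) (hper c₀ hc₀ l hl) (fun h => hl0 (by
      have h2 : c₀ + l = c₀ + 0 := by rw [add_zero]; exact h.symm
      exact add_left_cancel h2))
    rw [hI, hI] at h1
    have h3 : c₀ + l + x₁ ∈ (fun x => c₀ + x) '' interior K := by
      refine ⟨x₁ + l, hball ?_, ?_⟩
      · rw [Metric.mem_ball, dist_eq_norm, add_sub_cancel_left]
        exact hlt
      · change c₀ + (x₁ + l) = c₀ + l + x₁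
        abel
    have h4 : c₀ + l + x₁ ∈ (fun x => c₀ + l + x) '' interior K := ⟨x₁, hx₁, rfl⟩
    exact Set.disjoint_left.1 h1 h3 h4
  have hden : ∀ x : H, ∃ l ∈ Λ, ‖x - l‖ ≤ R + S := by
    intro x
    obtain ⟨c, hc, hxc⟩ := hcov x
    obtain ⟨l, hl, hcl⟩ := hS c hc
    refine ⟨l, hl, ?_⟩
    have h1 : x - l = (x - c) + (c - l) := by abel
    rw [h1]
    exact (norm_add_le _ _).trans (add_le_add (hR _ hxc) hcl)
  obtain ⟨v, hv0, hv, hvc⟩ := Pool.Agent.Run7.h163.WL.short_vector hH Λ hden (lt_min hε hr₁)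
  exact ⟨v, fun hvΛ => hsep v hvΛ hv0 (lt_of_lt_of_le hv (min_le_right _ _)),
    lt_of_lt_of_le hv (min_le_left _ _), hvc⟩

end Pool.Agent.Results.MP_3191e9_an.ShortWeakLimits
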